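import Pool.Agent.Work.MP_db9399_lh_helper29.UCSV

/-! THEOREM LCH, block UPAR: the partners of the vertices of `UH` (helper29, from the block UPAR of
LC, helper84). -/

set_option autoImplicit false

namespace Pool.Agent.Work.MP_db9399_lh.helper29

open Finset Classical
open Pool.Agent.Work.MP_db9399_lh
open Pool.Agent.Work.MP_db9399_all (nb)
open Pool.Agent.Work.MP_db9399_px (LWalk hit ee)
open Pool.Agent.Work.MP_db9399_dn (NB IsMat Tot)
open Pool.Agent.Work.MP_db9399_bg (den cl LabP Good PN IsPat en enP Sep Near REnv r0 Deep Spr Ok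
  Lbl bx c3f c3 rs rs_symm eR HPre Ix mem_nb mem_cl c3f_inj mem_c3 natCast_inj natCast_eq_neg)
open Pool.Agent.Work.MP_db9399_bg.helper84 (split two)
open Pool.Agent.Work.MP_db9399_lc (BL)
open Pool.Agent.Work.MP_db9399_lc.helper29 (Wm card_Wm)

universe u

section lists
variable {l m r K K1 S : ℕ}

/-- labels of the list of `u` (of type `i`) for the colour with index `(a, h)` and type `τ`; `W`
restricts `lam` inside the part `i` -/
noncomputable def lsW (i : ZMod 3) (W : Finset (ZMod (2 * l + 1))) (τ : Option (ZMod 3))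
    (a : ZMod (2 * m + 1)) (h : Fin m) : Finset (Lh l m r K K1 S) :=
  univ.filter (fun t => (τ = none ∧ ce t = a + ((h : ℕ) + 1 : ℕ) ∧ (pt t ≠ i ∨ t.1.2.1 ∈ W)) ∨
    ∃ j, τ = some j ∧ ((pt t = -(i + j) ∧
      (ce t = a + ((h : ℕ) + 1 : ℕ) ∨ ce t = a - ((h : ℕ) + 1 : ℕ))) ∨
      (pt t = i ∧ t.1.2.1 ∈ W ∧ ce t = a)))

theorem mem_none {i : ZMod 3} {W : Finset (ZMod (2 * l + 1))} {a : ZMod (2 * m + 1)} {h : Fin m}
    {t : Lh l m r K K1 S} : t ∈ lsW i W none a h ↔
      ce t = a + ((h : ℕ) + 1 : ℕ) ∧ (pt t ≠ i ∨ t.1.2.1 ∈ W) := by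
  simp [lsW]

theorem mem_some {i j : ZMod 3} {W : Finset (ZMod (2 * l + 1))} {a : ZMod (2 * m + 1)}
    {h : Fin m} {t : Lh l m r K K1 S} : t ∈ lsW i W (some j) a h ↔
      (pt t = -(i + j) ∧ (ce t = a + ((h : ℕ) + 1 : ℕ) ∨ ce t = a - ((h : ℕ) + 1 : ℕ))) ∨
      (pt t = i ∧ t.1.2.1 ∈ W ∧ ce t = a) := by
  simp [lsW]

theorem hne0 (h : Fin m) : (((h : ℕ) + 1 : ℕ) : ZMod (2 * m + 1)) ≠ 0 := by
  intro h0
  have hh := h.2
  have h2 : (((h : ℕ) + 1 : ℕ) : ZMod (2 * m + 1)) = ((0 : ℕ) : ZMod (2 * m + 1)) := by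
    rw [h0]; simp
  have := natCast_inj (by omega) (by omega) h2
  omega

theorem hnen (h : Fin m) : (((h : ℕ) + 1 : ℕ) : ZMod (2 * m + 1)) ≠
    -(((h : ℕ) + 1 : ℕ) : ZMod (2 * m + 1)) := by
  have hh := h.2
  exact fun h0 => natCast_eq_neg (by omega) (by omega) h0

theorem den_union {T : Type} [Fintype T] (A B : Finset T) (h : Disjoint A B) :
    den (A ∪ B) = den A + den B := by
  unfold den
  rw [card_union_of_disjoint h]
  push_cast
  ring

theorem den_ls (i : ZMod 3) (W : Finset (ZMod (2 * l + 1))) (τ : Option (ZMod 3))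
    (hτ : τ ≠ some i) (a : ZMod (2 * m + 1)) (h : Fin m) :
    den (lsW i W τ a h : Finset (Lh l m r K K1 S)) =
      1 / (2 * (m : ℝ) + 1) * (2 / 3 + W.card / (3 * (2 * (l : ℝ) + 1))) := by
  have h1 : (0 : ℝ) < 2 * (m : ℝ) + 1 := by positivity
  have h2 : (0 : ℝ) < 2 * (l : ℝ) + 1 := by positivity
  have h3 : (0 : ℝ) < (S : ℝ) + 1 := by positivity
  cases τ with
  | none =>
    have e1 : (lsW i W none a h : Finset (Lh l m r K K1 S)) =
        cy {a + (((h : ℕ) + 1 : ℕ) : ZMod (2 * m + 1))}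
          (((univ : Finset (ZMod (2 * l + 1))) ×ˢ (((univ : Finset (ZMod 3)).erase i) ×ˢ
            (univ : Finset (ZMod (S + 1))))) ∪
          (W ×ˢ (({i} : Finset (ZMod 3)) ×ˢ (univ : Finset (ZMod (S + 1)))))) := by
      ext t
      rw [mem_none, mem_cy, mem_union, mem_product, mem_product, mem_product, mem_product,
        mem_singleton, mem_singleton, mem_erase]
      simp only [mem_univ, true_and, and_true]
      constructor
      · rintro ⟨g1, g2⟩
        refine ⟨g1, ?_⟩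
        by_cases g3 : pt t = i
        · exact Or.inr ⟨g2.resolve_left (fun g => g g3), g3⟩
        · exact Or.inl g3
      · rintro ⟨g1, g2 | g2⟩
        · exact ⟨g1, Or.inl g2⟩
        · exact ⟨g1, Or.inr g2.1⟩
    rw [e1, den_cy, card_union_of_disjoint, card_product, card_product, card_product,
      card_product, card_singleton, card_singleton, card_erase_of_mem (mem_univ _), card_univ,
      card_univ, card_univ, card_zmod, card_zmod, ZMod.card]
    · push_cast
      field_simp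
    · rw [disjoint_left]
      intro c g1 g2
      simp only [mem_product, mem_erase, mem_singleton] at g1 g2
      exact g1.2.1.1 g2.2.1
  | some j =>
    have hij : i ≠ j := fun g => hτ (by rw [g])
    have e1 : (lsW i W (some j) a h : Finset (Lh l m r K K1 S)) =
        cy {a + (((h : ℕ) + 1 : ℕ) : ZMod (2 * m + 1)), a - (((h : ℕ) + 1 : ℕ) : ZMod (2 * m + 1))}
          ((univ : Finset (ZMod (2 * l + 1))) ×ˢ (({-(i + j)} : Finset (ZMod 3)) ×ˢ
            (univ : Finset (ZMod (S + 1))))) ∪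
        cy {a} (W ×ˢ (({i} : Finset (ZMod 3)) ×ˢ (univ : Finset (ZMod (S + 1))))) := by
      ext t
      rw [mem_some, mem_union, mem_cy, mem_cy, mem_product, mem_product, mem_product, mem_product,
        mem_singleton, mem_singleton, mem_singleton, mem_insert, mem_singleton]
      simp only [mem_univ, true_and, and_true]
      constructor
      · rintro (⟨g1, g2⟩ | ⟨g1, g2, g3⟩)
        · exact Or.inl ⟨g2, g1⟩
        · exact Or.inr ⟨g3, g2, g1⟩
      · rintro (⟨g1, g2⟩ | ⟨g1, g2, g3⟩)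
        · exact Or.inl ⟨g2, g1⟩
        · exact Or.inr ⟨g3, g2, g1⟩
    rw [e1, den_union, den_cy, den_cy, card_product, card_product, card_product,
      card_product, card_singleton, card_singleton, card_singleton, card_pair, card_univ,
      card_univ, card_zmod, card_zmod]
    · push_cast
      field_simp
    · intro g
      apply hnen h
      linear_combination g
    · rw [disjoint_left]
      intro t g1 g2
      rw [mem_cy, mem_product, mem_product, mem_singleton] at g1 g2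
      have g3 := (third i j (pt t) hij).mpr g1.2.2.1
      exact g3.1 (mem_singleton.mp g2.2.2.1)

/-- number of centres -/
def Fc (i q : ZMod 3) : Option (ZMod 3) → ℕ
  | none => 1
  | some j => if j = i then 0 else if q = i then 1 else if q = -(i + j) then 2 else 0

theorem sum_Fc (i q : ZMod 3) : ∑ j : ZMod 3, Fc i q (some j) = 2 := by
  revert i q
  decide

theorem cnt_a (i : ZMod 3) (W : Finset (ZMod (2 * l + 1))) (τ : Option (ZMod 3)) (h : Fin m)
    (t : Lh l m r K K1 S) (ht : pt t ≠ i ∨ t.1.2.1 ∈ W) :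
    (univ.filter (fun a => τ ≠ some i ∧ t ∈ lsW i W τ a h)).card = Fc i (pt t) τ := by
  cases τ with
  | none =>
    have e1 : (univ.filter (fun a => (none : Option (ZMod 3)) ≠ some i ∧ t ∈ lsW i W none a h)) =
        {ce t - (((h : ℕ) + 1 : ℕ) : ZMod (2 * m + 1))} := by
      ext a
      rw [mem_filter, mem_none, mem_singleton]
      constructor
      · rintro ⟨_, _, g1, _⟩
        rw [g1]; ring
      · intro g
        refine ⟨mem_univ _, by simp, ?_, ht⟩
        rw [g]; ring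
    rw [e1, card_singleton]
    rfl
  | some j =>
    show _ = if j = i then 0 else if pt t = i then 1 else if pt t = -(i + j) then 2 else 0
    by_cases hj : j = i
    · rw [if_pos hj, card_eq_zero, filter_eq_empty_iff]
      intro a _ g
      exact g.1 (by rw [hj])
    rw [if_neg hj]
    have hij : i ≠ j := fun g => hj g.symm
    by_cases hq : pt t = i
    · rw [if_pos hq]
      have e1 : (univ.filter (fun a => (some j : Option (ZMod 3)) ≠ some i ∧
          t ∈ lsW i W (some j) a h)) = {ce t} := by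
        ext a
        rw [mem_filter, mem_some, mem_singleton]
        constructor
        · rintro ⟨_, _, g1 | g1⟩
          · exact absurd hq ((third i j (pt t) hij).mpr g1.1).1
          · exact g1.2.2.symm
        · intro g
          refine ⟨mem_univ _, ?_, Or.inr ⟨hq, ht.resolve_left (fun g' => g' hq), g.symm⟩⟩
          intro g'
          exact hj (Option.some_inj.mp g')
      rw [e1, card_singleton]
    rw [if_neg hq]
    by_cases hq2 : pt t = -(i + j)
    · rw [if_pos hq2]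
      have e1 : (univ.filter (fun a => (some j : Option (ZMod 3)) ≠ some i ∧
          t ∈ lsW i W (some j) a h)) = {ce t - (((h : ℕ) + 1 : ℕ) : ZMod (2 * m + 1)),
            ce t + (((h : ℕ) + 1 : ℕ) : ZMod (2 * m + 1))} := by
        ext a
        rw [mem_filter, mem_some, mem_insert, mem_singleton]
        constructor
        · rintro ⟨_, _, ⟨_, g1 | g1⟩ | g1⟩
          · left; rw [g1]; ring
          · right; rw [g1]; ring
          · exact absurd g1.1 hq
        · intro g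
          refine ⟨mem_univ _, ?_, Or.inl ⟨hq2, ?_⟩⟩
          · intro g'
            exact hj (Option.some_inj.mp g')
          · rcases g with g | g
            · left; rw [g]; ring
            · right; rw [g]; ring
      rw [e1, card_pair]
      intro g
      apply hnen h
      linear_combination -g
    · rw [if_neg hq2, card_eq_zero, filter_eq_empty_iff]
      rintro a _ ⟨_, g⟩
      rw [mem_some] at g
      rcases g with g | g
      · exact hq2 g.1
      · exact hq g.1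

theorem sum_types {w : ℕ} (τ : Fin w → Option (ZMod 3)) (w0 wq : ℕ)
    (h0 : (univ.filter (fun s => τ s = none)).card = w0)
    (hq : ∀ j, (univ.filter (fun s => τ s = some j)).card = wq) (F : Option (ZMod 3) → ℕ) :
    ∑ s, F (τ s) = w0 * F none + wq * ∑ j : ZMod 3, F (some j) := by
  have h1 : ∑ s, F (τ s) = ∑ o : Option (ZMod 3), (univ.filter (fun s => τ s = o)).card * F o := by
    rw [← Finset.sum_fiberwise (s := univ) (g := τ)]
    refine Finset.sum_congr rfl fun o _ => ?_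
    rw [Finset.sum_congr rfl (fun s hs => by rw [(mem_filter.mp hs).2]), sum_const, smul_eq_mul]
  rw [h1, Fintype.sum_option, h0, Finset.mul_sum]
  congr 1
  exact Finset.sum_congr rfl fun j _ => by rw [hq j]

theorem card_Ix {w : ℕ} (P : Ix m w → Prop) [DecidablePred P] :
    (univ.filter P).card = ∑ h : Fin m, ∑ s : Fin w, (univ.filter (fun a => P (a, h, s))).card := by
  rw [card_filter, Fintype.sum_prod_type, Finset.sum_comm, Fintype.sum_prod_type]
  refine Finset.sum_congr rfl fun h _ => Finset.sum_congr rfl fun s _ => ?_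
  rw [card_filter]

/-- every label is in exactly `m (w0 + 2 wq)` lists -/
theorem cnt_x {w : ℕ} (τ : Fin w → Option (ZMod 3)) (w0 wq : ℕ)
    (h0 : (univ.filter (fun s => τ s = none)).card = w0)
    (hq : ∀ j, (univ.filter (fun s => τ s = some j)).card = wq)
    (i : ZMod 3) (W : Finset (ZMod (2 * l + 1)))
    (t : Lh l m r K K1 S) (ht : pt t ≠ i ∨ t.1.2.1 ∈ W) :
    (univ.filter (fun x : Ix m w => τ x.2.2 ≠ some i ∧
      t ∈ lsW i W (τ x.2.2) x.1 x.2.1)).card = m * (w0 + 2 * wq) := by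
  rw [card_Ix]
  have h1 : ∀ h : Fin m, ∑ s : Fin w, (univ.filter (fun a => τ s ≠ some i ∧
      t ∈ lsW i W (τ s) a h)).card = w0 + 2 * wq := by
    intro h
    rw [Finset.sum_congr rfl (fun s _ => cnt_a i W (τ s) h t ht), sum_types τ w0 wq h0 hq,
      sum_Fc]
    simp only [Fc]
    ring
  rw [Finset.sum_congr rfl (fun h _ => h1 h), sum_const, card_univ, Fintype.card_fin,
    smul_eq_mul]

/-- number of colours of the rounds for a vertex of type `i` -/
theorem cnt_valid {w : ℕ} (τ : Fin w → Option (ZMod 3)) (w0 wq : ℕ)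
    (h0 : (univ.filter (fun s => τ s = none)).card = w0)
    (hq : ∀ j, (univ.filter (fun s => τ s = some j)).card = wq) (i : ZMod 3) :
    (univ.filter (fun x : Ix m w => τ x.2.2 ≠ some i)).card =
      (2 * m + 1) * (m * (w0 + 2 * wq)) := by
  rw [card_Ix]
  have h1 : ∀ h : Fin m, ∑ s : Fin w, (univ.filter (fun _ : ZMod (2 * m + 1) =>
      τ s ≠ some i)).card = (2 * m + 1) * (w0 + 2 * wq) := by
    intro h
    have h2 : ∀ s, (univ.filter (fun _ : ZMod (2 * m + 1) => τ s ≠ some i)).card =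
        (fun o : Option (ZMod 3) => if o = some i then 0 else 2 * m + 1) (τ s) := by
      intro s
      by_cases h3 : τ s = some i
      · simp [h3]
      · simp only [h3, not_false_eq_true, ne_eq, filter_true, card_univ, card_zmod, if_false]
    rw [Finset.sum_congr rfl (fun s _ => h2 s), sum_types τ w0 wq h0 hq
      (fun o : Option (ZMod 3) => if o = some i then 0 else 2 * m + 1)]
    have h4 : ∑ j : ZMod 3, (if (some j : Option (ZMod 3)) = some i then 0 else 2 * m + 1) =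
        2 * (2 * m + 1) := by
      simp only [Option.some_inj]
      rw [Finset.sum_ite, sum_const_zero, zero_add, sum_const, filter_not, filter_eq',
        if_pos (mem_univ _), card_sdiff_of_subset (subset_univ _), card_singleton, card_univ,
        ZMod.card, smul_eq_mul]
    simp only [h4]
    simp only [reduceCtorEq, if_false]
    ring
  rw [Finset.sum_congr rfl (fun h _ => h1 h), sum_const, card_univ, Fintype.card_fin,
    smul_eq_mul]
  ring

end lists

section bounds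
variable {V : Type u} [Fintype V] {l m r K K1 S : ℕ}

/-- a lower bound for the degree into a set of labels outside `UH` -/
theorem low_gen {k d : ℕ} {G : SimpleGraph V} {σ c1 : ℝ} {UH : Finset V} {c0 : V → Fin k}
    {EH : SimpleGraph V} {tu : V → Fin k} {lab : V → Lh l m r K K1 S} (hL : LabP G d σ c1 lab)
    (hH : HPre G UH c0 EH tu) (u : V) (P : Finset (Lh l m r K K1 S)) :
    den P * (nb G u).card - σ * d - 2 ≤
      (((nb G u).filter (fun v => v ∉ UH ∧ lab v ∈ P)).card : ℝ) := by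
  have h1 := hL.deg u P
  rw [abs_le] at h1
  have h3 : nb G u ∩ cl lab P ⊆
      (nb G u).filter (fun v => v ∉ UH ∧ lab v ∈ P) ∪ (nb G u ∩ UH) := by
    intro v hv
    rw [mem_inter, mem_cl] at hv
    rw [mem_union, mem_filter, mem_inter]
    by_cases hU : v ∈ UH
    · exact Or.inr ⟨hv.1, hU⟩
    · exact Or.inl ⟨hv.1, hU, hv.2⟩
  have h4 := (card_le_card h3).trans (card_union_le _ _)
  have h5 := hH.two u
  have h7 : (((nb G u ∩ UH).card : ℕ) : ℝ) ≤ 2 := by exact_mod_cast h5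
  have h8 : ((nb G u ∩ cl lab P).card : ℝ) ≤
      (((nb G u).filter (fun v => v ∉ UH ∧ lab v ∈ P)).card : ℝ) + ((nb G u ∩ UH).card : ℝ) := by
    exact_mod_cast h4
  linarith [h1.1]

/-- an upper bound for the degree into a set of labels -/
theorem upp_gen {d : ℕ} {G : SimpleGraph V} {σ c1 : ℝ} {lab : V → Lh l m r K K1 S}
    (hL : LabP G d σ c1 lab) (u : V) (P : Finset (Lh l m r K K1 S)) (X : Finset V)
    (hX : ∀ v ∈ X, G.Adj u v ∧ lab v ∈ P) :
    (X.card : ℝ) ≤ den P * (nb G u).card + σ * d := by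
  have h1 := hL.deg u P
  rw [abs_le] at h1
  have h3 : X ⊆ nb G u ∩ cl lab P := by
    intro v hv
    rw [mem_inter, mem_cl, mem_nb]
    exact hX v hv
  have h4 : (X.card : ℝ) ≤ ((nb G u ∩ cl lab P).card : ℝ) := by exact_mod_cast card_le_card h3
  linarith [h1.2]

/-- labels of the partners in the colours `e1 y` -/
noncomputable def lsB (i : ZMod 3) (y1 y2 : Fin (K1 + 1)) : Finset (Lh l m r K K1 S) :=
  bb univ (({0} : Finset (ZMod (2 * l + 1))) ×ˢ (({i} : Finset (ZMod 3)) ×ˢ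
    (univ : Finset (ZMod (S + 1))))) univ univ univ ({y1, y2}ᶜ)

theorem mem_lsB {i : ZMod 3} {y1 y2 : Fin (K1 + 1)} {t : Lh l m r K K1 S} :
    t ∈ lsB i y1 y2 ↔ t.1.2.1 = 0 ∧ pt t = i ∧ sp t ≠ y1 ∧ sp t ≠ y2 := by
  unfold lsB
  rw [mem_bb, mem_product, mem_product, mem_singleton, mem_singleton, mem_compl, mem_insert,
    mem_singleton, not_or]
  simp only [mem_univ, true_and, and_true]
  tauto

theorem den_lsB (hK : 4 ≤ K1) (i : ZMod 3) (y1 y2 : Fin (K1 + 1)) :
    1 / (5 * (2 * (l : ℝ) + 1)) ≤ den (lsB i y1 y2 : Finset (Lh l m r K K1 S)) := by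
  unfold lsB
  rw [den_bb, card_product, card_product, card_singleton, card_singleton, card_univ, card_univ,
    card_univ, card_univ, card_zmod, card_zmod, Fintype.card_fin, Fintype.card_fin]
  have h1 : (0 : ℝ) < (2 * (m : ℝ) + 1) := by positivity
  have h2 : (0 : ℝ) < (2 * (l : ℝ) + 1) := by positivity
  have h3 : (0 : ℝ) < ((r : ℝ) + 1) := by positivity
  have h4 : (0 : ℝ) < ((K : ℝ) + 1) := by positivity
  have h5 : (0 : ℝ) < ((K1 : ℝ) + 1) := by positivity
  have h6 : (K1 : ℝ) + 1 - 2 ≤ ((({y1, y2} : Finset (Fin (K1 + 1)))ᶜ).card : ℝ) := by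
    have h7 : K1 + 1 ≤ (({y1, y2} : Finset (Fin (K1 + 1)))ᶜ).card + 2 := by
      rw [card_compl, Fintype.card_fin]
      have := card_le_two (a := y1) (b := y2)
      omega
    have h8 : ((K1 + 1 : ℕ) : ℝ) ≤
        (((({y1, y2} : Finset (Fin (K1 + 1)))ᶜ).card + 2 : ℕ) : ℝ) := by
      exact_mod_cast h7
    push_cast at h8
    linarith
  have hK' : (4 : ℝ) ≤ K1 := by exact_mod_cast hK
  have h9 : (3 : ℝ) / 5 ≤ ((({y1, y2} : Finset (Fin (K1 + 1)))ᶜ).card : ℝ) / ((K1 : ℝ) + 1) := by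
    rw [le_div_iff₀ h5]
    linarith
  have h10 : (0 : ℝ) < (S : ℝ) + 1 := by positivity
  push_cast
  have h11 : (2 * (m : ℝ) + 1) / (2 * (m : ℝ) + 1) *
      (1 * (1 * ((S : ℝ) + 1)) / ((2 * (l : ℝ) + 1) * (3 * ((S : ℝ) + 1)))) *
      (((r : ℝ) + 1) / ((r : ℝ) + 1)) * ((2 * (m : ℝ) + 1) / (2 * (m : ℝ) + 1)) *
      (((K : ℝ) + 1) / ((K : ℝ) + 1)) = 1 / (3 * (2 * (l : ℝ) + 1)) := by
    field_simp
  rw [h11]
  calc 1 / (5 * (2 * (l : ℝ) + 1)) = 1 / (3 * (2 * (l : ℝ) + 1)) * (3 / 5) := by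
        field_simp
    _ ≤ _ := mul_le_mul_of_nonneg_left h9 (by positivity)

end bounds

/-- numerical facts -/
theorem numA {N Λ d X M t : ℝ} (hN : 3 ≤ N) (hΛ : 41 ≤ Λ)
    (hd : 100 * (N * Λ) ≤ d) (hX1 : (1 - 1 / (24 * Λ)) * d ≤ X)
    (ht : t ≤ d / (32 * (N * Λ))) (hM : N * M ≤ (1 - 1 / (2 * Λ)) * d) :
    M + t + 1 ≤
      1 / N * (2 / 3 + (Λ - 1) / (3 * Λ)) * X - 1 / (32 * (N * Λ)) * d - 2 := by
  have hN0 : 0 < N := by linarith
  have hΛ0 : 0 < Λ := by linarith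
  have hd0 : 0 < d := lt_of_lt_of_le (by positivity) hd
  obtain ⟨s, hs⟩ : ∃ s, s = d / (N * Λ) := ⟨_, rfl⟩
  have hds : d = s * (N * Λ) := by rw [hs]; field_simp
  have hs16 : 100 ≤ s := by rw [hs, le_div_iff₀ (by positivity)]; exact hd
  have a1 : 1 / (32 * (N * Λ)) * d = s / 32 := by rw [hds]; field_simp
  have a0 : d / (32 * (N * Λ)) = s / 32 := by rw [hds]; field_simp
  have a2 : M ≤ s * Λ - s / 2 := by
    have h1 : N * M ≤ N * (s * Λ - s / 2) := by
      refine hM.trans (le_of_eq ?_)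
      rw [hds]; field_simp
    exact le_of_mul_le_mul_left h1 hN0
  have a4 : s * Λ - 3 * s / 8 ≤ 1 / N * (2 / 3 + (Λ - 1) / (3 * Λ)) * X := by
    have h0 : 0 ≤ 1 / N * (2 / 3 + (Λ - 1) / (3 * Λ)) := by
      have : 0 ≤ (Λ - 1) / (3 * Λ) := div_nonneg (by linarith) (by positivity)
      exact mul_nonneg (by positivity) (by linarith)
    refine le_trans ?_ (mul_le_mul_of_nonneg_left hX1 h0)
    have h2 : 1 / N * (2 / 3 + (Λ - 1) / (3 * Λ)) * ((1 - 1 / (24 * Λ)) * d) =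
        s * Λ - s / 24 - s / 3 + s / 72 * (1 / Λ) := by
      rw [hds]; field_simp; ring
    rw [h2]
    have h3 : 0 ≤ s / 72 * (1 / Λ) := by positivity
    linarith
  rw [a1]
  rw [a0] at ht
  linarith

theorem numS {N Λ d X M t : ℝ} (hN : 3 ≤ N) (hΛ : 41 ≤ Λ) (hd : 100 * (N * Λ) ≤ d)
    (hX2 : X ≤ d) (ht : t ≤ d / (32 * (N * Λ))) (hM : (1 - 1 / Λ) * d ≤ N * M) :
    1 / N * (2 / 3 + (Λ - 4) / (3 * Λ)) * X + 1 / (32 * (N * Λ)) * d + t + 4 ≤ M := by
  have hN0 : 0 < N := by linarith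
  have hΛ0 : 0 < Λ := by linarith
  have hd0 : 0 < d := lt_of_lt_of_le (by positivity) hd
  obtain ⟨s, hs⟩ : ∃ s, s = d / (N * Λ) := ⟨_, rfl⟩
  have hds : d = s * (N * Λ) := by rw [hs]; field_simp
  have hs16 : 100 ≤ s := by rw [hs, le_div_iff₀ (by positivity)]; exact hd
  have a1 : 1 / (32 * (N * Λ)) * d = s / 32 := by rw [hds]; field_simp
  have a0 : d / (32 * (N * Λ)) = s / 32 := by rw [hds]; field_simp
  have a2 : s * Λ - s ≤ M := by
    have h1 : N * (s * Λ - s) ≤ N * M := by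
      refine le_trans (le_of_eq ?_) hM
      rw [hds]; field_simp
    exact le_of_mul_le_mul_left h1 hN0
  have a4 : 1 / N * (2 / 3 + (Λ - 4) / (3 * Λ)) * X ≤ s * Λ - 4 / 3 * s := by
    have h0 : 0 ≤ 1 / N * (2 / 3 + (Λ - 4) / (3 * Λ)) := by
      have : 0 ≤ (Λ - 4) / (3 * Λ) := div_nonneg (by linarith) (by positivity)
      exact mul_nonneg (by positivity) (by linarith)
    refine (mul_le_mul_of_nonneg_left hX2 h0).trans (le_of_eq ?_)
    rw [hds]; field_simp; ring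
  rw [a1]
  rw [a0] at ht
  linarith

theorem numB {N Λ d X : ℝ} (hN : 3 ≤ N) (hΛ : 41 ≤ Λ) (hd : 100 * (N * Λ) ≤ d)
    (hX1 : (1 - 1 / (24 * Λ)) * d ≤ X) :
    1 / (8 * Λ) * d + 2 ≤ 1 / (5 * Λ) * X - 1 / (32 * (N * Λ)) * d - 2 := by
  have hN0 : 0 < N := by linarith
  have hΛ0 : 0 < Λ := by linarith
  obtain ⟨s, hs⟩ : ∃ s, s = d / Λ := ⟨_, rfl⟩
  have hds : d = s * Λ := by rw [hs]; field_simp
  have hs48 : 300 ≤ s := by
    rw [hs, le_div_iff₀ hΛ0]
    nlinarith
  have a1 : 1 / (32 * (N * Λ)) * d ≤ s / 96 := by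
    have : 1 / (32 * (N * Λ)) * d = s / 32 * (1 / N) := by rw [hds]; field_simp
    rw [this]
    have h1 : 1 / N ≤ 1 / 3 := one_div_le_one_div_of_le (by norm_num) hN
    nlinarith
  have a2 : 1 / (8 * Λ) * d = s / 8 := by rw [hds]; field_simp
  have a3 : s / 5 - s / 120 ≤ 1 / (5 * Λ) * X := by
    have h1 : 1 / (5 * Λ) * ((1 - 1 / (24 * Λ)) * d) ≤ 1 / (5 * Λ) * X :=
      mul_le_mul_of_nonneg_left hX1 (by positivity)
    refine le_trans ?_ h1
    have h2 : 1 / (5 * Λ) * ((1 - 1 / (24 * Λ)) * d) = s / 5 - s / 120 * (1 / Λ) := by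
      rw [hds]; field_simp; ring
    rw [h2]
    have h3 : 1 / Λ ≤ 1 := by rw [div_le_one hΛ0]; linarith
    have h4 : s / 120 * (1 / Λ) ≤ s / 120 * 1 := mul_le_mul_of_nonneg_left h3 (by linarith)
    linarith
  rw [a2]
  linarith

theorem stmt_UPAR (hU : MP_db9399_bg.Stmt_UCL.{u}) : Stmt_UPAR.{u} := by
  intro l m r K K1 S δ hδ hl hm hr hK4
  obtain ⟨N, hNdef⟩ : ∃ N : ℝ, N = 2 * (m : ℝ) + 1 := ⟨_, rfl⟩
  obtain ⟨Λ, hΛdef⟩ : ∃ Λ : ℝ, Λ = 2 * (l : ℝ) + 1 := ⟨_, rfl⟩
  have hN3 : 3 ≤ N := by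
    have : (1 : ℝ) ≤ m := by exact_mod_cast hm
    rw [hNdef]; linarith
  have hΛ41 : 41 ≤ Λ := by
    have : (20 : ℝ) ≤ l := by exact_mod_cast hl
    rw [hΛdef]; linarith
  have hN0 : 0 < N := by linarith
  have hΛ0 : 0 < Λ := by linarith
  have hcB : 0 < 1 / (8 * Λ) := by positivity
  obtain ⟨dA, hdA⟩ := twoV.{u} (1 / (64 * (N * Λ))) δ (by positivity) hδ
  obtain ⟨dB, hdB⟩ := two hU (1 / (8 * Λ)) δ hcB hδ
  refine ⟨1 / (32 * (N * Λ)), 1 / (24 * Λ), max (max dA dB) (100 * ((2 * m + 1) * (2 * l + 1))),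
    by positivity, by positivity, ?_⟩
  intro V _ G d k w w0 wq W1 g c1 UH c0 EH tu lab e τ e1 sy tp pal c hd hBG hL hH he he1 hee hV
    hw0 hwq hw hwl hw1
  have hd1 : dA ≤ d := le_trans (le_trans (le_max_left _ _) (le_max_left _ _)) hd
  have hd2 : dB ≤ d := le_trans (le_trans (le_max_right _ _) (le_max_left _ _)) hd
  have hd3 : 100 * (N * Λ) ≤ (d : ℝ) := by
    have h1 : 100 * ((2 * m + 1) * (2 * l + 1)) ≤ d := le_trans (le_max_right _ _) hd
    have h2 : ((100 * ((2 * m + 1) * (2 * l + 1)) : ℕ) : ℝ) ≤ d := by exact_mod_cast h1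
    push_cast at h2
    rw [hNdef, hΛdef]
    exact h2
  have hd0 : (0 : ℝ) < d := lt_of_lt_of_le (by positivity) hd3
  rw [← hNdef, ← hΛdef] at hw hwl
  rw [← hΛdef] at hw1
  obtain ⟨U1, pr', hU1, hpt, hadj, hinv, hsp⟩ := split hH
  -- the numbers
  obtain ⟨M, hM⟩ : ∃ M : ℕ, M = m * (w0 + 2 * wq) := ⟨_, rfl⟩
  have hMr : N * (M : ℝ) = N * m * (w0 + 2 * wq) := by rw [hM]; push_cast; ring
  have hMu : N * (M : ℝ) ≤ (1 - 1 / (2 * Λ)) * d := by rw [hMr]; exact hw
  have hMl : (1 - 1 / Λ) * d ≤ N * (M : ℝ) := by rw [hMr]; exact hwl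
  obtain ⟨tt, htt⟩ : ∃ tt : ℕ, tt = ⌊(d : ℝ) / (32 * (N * Λ))⌋₊ := ⟨_, rfl⟩
  have htt1 : (tt : ℝ) ≤ (d : ℝ) / (32 * (N * Λ)) := by
    rw [htt]
    exact Nat.floor_le (by positivity)
  have htt2 : 1 / (64 * (N * Λ)) * (d : ℝ) ≤ tt := by
    have h1 : (d : ℝ) / (32 * (N * Λ)) < tt + 1 := by
      rw [htt]
      exact Nat.lt_floor_add_one _
    obtain ⟨s, hs⟩ : ∃ s, s = (d : ℝ) / (N * Λ) := ⟨_, rfl⟩
    have hs100 : 100 ≤ s := by rw [hs, le_div_iff₀ (by positivity)]; exact hd3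
    have h2 : (d : ℝ) / (32 * (N * Λ)) = s / 32 := by rw [hs]; field_simp
    have h3 : 1 / (64 * (N * Λ)) * (d : ℝ) = s / 64 := by rw [hs]; field_simp
    rw [h2] at h1
    rw [h3]
    linarith
  obtain ⟨DA, hDA⟩ : ∃ DA : ℕ, DA = M + tt := ⟨_, rfl⟩
  obtain ⟨DB, hDB⟩ : ∃ DB : ℕ, DB = ⌈1 / (8 * Λ) * (d : ℝ)⌉₊ := ⟨_, rfl⟩
  have hDB1 : 1 / (8 * Λ) * (d : ℝ) ≤ DB := by rw [hDB]; exact Nat.le_ceil _
  have hDB2 : (DB : ℝ) ≤ 1 / (8 * Λ) * (d : ℝ) + 1 := by
    rw [hDB]
    exact (Nat.ceil_lt_add_one (mul_nonneg hcB.le hd0.le)).le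
  have hDBd : DB ≤ d := by
    have h1 : 1 / (8 * Λ) * (d : ℝ) + 1 ≤ d := by
      have h2 : 1 / (8 * Λ) ≤ 1 / 2 := one_div_le_one_div_of_le (by norm_num) (by linarith)
      have h3 : 1 / (8 * Λ) * (d : ℝ) ≤ 1 / 2 * d := mul_le_mul_of_nonneg_right h2 hd0.le
      have h4 : (2 : ℝ) ≤ d := by nlinarith
      linarith
    exact_mod_cast hDB2.trans h1
  have hM5 : 5 ≤ M := by
    have h1 : (5 : ℝ) ≤ M := by
      have h2 : N * 5 ≤ N * (M : ℝ) := by
        refine le_trans ?_ hMl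
        have h3 : (1 - 1 / Λ) * (d : ℝ) = (Λ - 1) * (d / Λ) := by field_simp
        have h4 : 100 * N ≤ (d : ℝ) / Λ := by
          rw [le_div_iff₀ hΛ0]
          linarith
        rw [h3]
        nlinarith
      exact le_of_mul_le_mul_left h2 hN0
    exact_mod_cast h1
  have hW1 : W1 ≤ DB := by
    have h1 : (W1 : ℝ) ≤ DB := by
      refine le_trans (hw1.trans ?_) hDB1
      rw [div_mul_eq_mul_div, one_mul]
      exact div_le_div_of_nonneg_left hd0.le (by positivity) (by linarith)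
    exact_mod_cast h1
  -- the index sets
  obtain ⟨IA, hIA⟩ : ∃ IA : V → Finset (Fin k), IA = fun u =>
    univ.filter (fun b => (∃ x, e x = b ∧ τ x.2.2 ≠ some (tp u)) ∧ b ≠ c0 u ∧ b ≠ tu u) :=
    ⟨_, rfl⟩
  obtain ⟨IB, hIB⟩ : ∃ IB : V → Finset (Fin k), IB = fun u =>
    univ.filter (fun b => b ∈ Set.range e1 ∧ b ≠ c0 u ∧ b ≠ tu u) := ⟨_, rfl⟩
  have hIAm : ∀ u b, b ∈ IA u ↔ (∃ x, e x = b ∧ τ x.2.2 ≠ some (tp u)) ∧
      b ≠ c0 u ∧ b ≠ tu u := by
    intro u b
    rw [hIA]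
    simp only [mem_filter, mem_univ, true_and]
  have hIBm : ∀ u b, b ∈ IB u ↔ b ∈ Set.range e1 ∧ b ≠ c0 u ∧ b ≠ tu u := by
    intro u b
    rw [hIB]
    simp only [mem_filter, mem_univ, true_and]
  have hIAc : ∀ u, (IA u).card ≤ d := by
    intro u
    have h1 : IA u ⊆ (univ.filter (fun x : Ix m w => τ x.2.2 ≠ some (tp u))).image e := by
      intro b hb
      obtain ⟨⟨x, hx, hx2⟩, _⟩ := (hIAm u b).mp hb
      exact mem_image.mpr ⟨x, mem_filter.mpr ⟨mem_univ _, hx2⟩, hx⟩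
    refine (card_le_card h1).trans (card_image_le.trans ?_)
    rw [cnt_valid τ w0 wq hw0 hwq (tp u), ← hM]
    have h3 : (((2 * m + 1) * M : ℕ) : ℝ) ≤ d := by
      push_cast
      rw [← hNdef]
      refine hMu.trans ?_
      have : 0 ≤ 1 / (2 * Λ) * (d : ℝ) := by positivity
      linarith
    exact_mod_cast h3
  have hIBc : ∀ u, (IB u).card ≤ DB := by
    intro u
    have h1 : IB u ⊆ univ.image e1 := by
      intro b hb
      obtain ⟨⟨x, hx⟩, _⟩ := (hIBm u b).mp hb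
      exact mem_image.mpr ⟨x, mem_univ _, hx⟩
    refine (card_le_card h1).trans (card_image_le.trans ?_)
    rw [card_univ, Fintype.card_fin]
    exact hW1
  have hX1 : ∀ u, (1 - 1 / (24 * Λ)) * (d : ℝ) ≤ ((nb G u).card : ℝ) := hBG.low
  have hX2 : ∀ u, ((nb G u).card : ℝ) ≤ d := fun u => by exact_mod_cast hBG.deg u
  have hcW0 : (((univ : Finset (ZMod (2 * l + 1))).erase 0).card : ℝ) = Λ - 1 := by
    rw [card_erase_of_mem (mem_univ _), card_univ, card_zmod, hΛdef]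
    push_cast
    simp
  have hcWm : ((Wm l).card : ℝ) = Λ - 4 := by
    rw [card_Wm l (by omega), Nat.cast_sub (by omega), hΛdef]
    push_cast
    ring
  -- the colours e x
  obtain ⟨W, hWdef⟩ : ∃ W : Finset (ZMod (2 * l + 1)), W = univ.erase 0 := ⟨_, rfl⟩
  rw [← hWdef] at hcW0
  have hWm : ∀ z, z ∈ W ↔ z ≠ 0 := by
    intro z
    rw [hWdef, mem_erase]
    simp
  obtain ⟨AlA, hAlA⟩ : ∃ AlA : V → Fin k → Finset V, AlA = fun u b =>
    (nb G u).filter (fun v => v ∉ UH ∧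
      ∃ x, e x = b ∧ τ x.2.2 ≠ some (tp u) ∧ lab v ∈ lsW (tp u) W (τ x.2.2) x.1 x.2.1) :=
    ⟨_, rfl⟩
  have hAlm : ∀ u b v, v ∈ AlA u b ↔ G.Adj u v ∧ v ∉ UH ∧
      ∃ x, e x = b ∧ τ x.2.2 ≠ some (tp u) ∧ lab v ∈ lsW (tp u) W (τ x.2.2) x.1 x.2.1 := by
    intro u b v
    rw [hAlA]
    simp only [mem_filter, mem_nb]
  obtain ⟨SS, hSS⟩ : ∃ SS : V → Finset V, SS = fun u =>
    univ.filter (fun v => v ∉ UH ∧ (pt (lab v) ≠ tp u ∨ inM (lab v))) := ⟨_, rfl⟩
  have hSm : ∀ u v, v ∈ SS u ↔ v ∉ UH ∧ (pt (lab v) ≠ tp u ∨ inM (lab v)) := by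
    intro u v
    rw [hSS]
    simp only [mem_filter, mem_univ, true_and]
  have hMW : ∀ t : Lh l m r K K1 S, inM t → t.1.2.1 ∈ W := by
    intro t ht
    rw [hWm]
    intro h0
    have := ht.1
    rw [h0, ZMod.val_zero] at this
    omega
  have hMm : ∀ t : Lh l m r K K1 S, inM t → t.1.2.1 ∈ Wm l := by
    intro t ht
    unfold Wm
    rw [mem_filter]
    exact ⟨mem_univ _, ht⟩
  obtain ⟨fA, hfA1, hfA2, hfA3, hfAS, hfA4⟩ := hdA G d DA (M - 4) tt k UH U1 SS pr' IA
    AlA hd1 htt2 (by omega) hBG.deg hH.two hU1 hpt hinv hsp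
    (fun u _ => hIAc u)
    (fun u _ b hb => by
      refine ⟨fun v hv => mem_nb.mpr ((hAlm u b v).mp hv).1, ?_⟩
      obtain ⟨⟨x, hx, hx2⟩, _, _⟩ := (hIAm u b).mp hb
      have h1 := low_gen hL hH u (lsW (tp u) W (τ x.2.2) x.1 x.2.1)
      rw [den_ls _ _ _ hx2, hcW0, ← hNdef, ← hΛdef] at h1
      have h2 := numA hN3 hΛ41 hd3 (hX1 u) htt1 hMu
      have h4 : (((nb G u).filter (fun v => v ∉ UH ∧
          lab v ∈ lsW (tp u) W (τ x.2.2) x.1 x.2.1)).card : ℝ) ≤ ((AlA u b).card : ℝ) := by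
        have h5 : (nb G u).filter (fun v => v ∉ UH ∧
          lab v ∈ lsW (tp u) W (τ x.2.2) x.1 x.2.1) ⊆ AlA u b := by
          intro v hv
          rw [mem_filter, mem_nb] at hv
          obtain ⟨g1, g2, g3⟩ := hv
          exact (hAlm u b v).mpr ⟨g1, g2, x, hx, hx2, g3⟩
        exact_mod_cast card_le_card h5
      have h6 : ((DA + 1 : ℕ) : ℝ) ≤ ((AlA u b).card : ℝ) := by
        rw [hDA]
        push_cast
        linarith
      exact_mod_cast h6)
    (fun u _ v => by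
      rw [hDA]
      refine Nat.add_le_add_right ?_ _
      by_cases ht : pt (lab v) ≠ tp u ∨ (lab v).1.2.1 ∈ W
      · have h1 := cnt_x τ w0 wq hw0 hwq (tp u) W (lab v) ht
        rw [hM, ← h1]
        refine le_trans (card_le_card (t := (univ.filter (fun x : Ix m w =>
          τ x.2.2 ≠ some (tp u) ∧ lab v ∈ lsW (tp u) W (τ x.2.2) x.1 x.2.1)).image e) ?_)
          card_image_le
        intro b hb
        rw [mem_filter] at hb
        obtain ⟨_, _, x, g1, g2, g3⟩ := (hAlm u b v).mp hb.2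
        exact mem_image.mpr ⟨x, mem_filter.mpr ⟨mem_univ _, g2, g3⟩, g1⟩
      · push Not at ht
        have h1 : (IA u).filter (fun b => v ∈ AlA u b) = ∅ := by
          rw [filter_eq_empty_iff]
          intro b _ hb
          obtain ⟨_, _, x, g1, g2, g3⟩ := (hAlm u b v).mp hb
          cases hτ : τ x.2.2 with
          | none =>
            rw [hτ, mem_none] at g3
            rcases g3.2 with g4 | g4
            · exact g4 ht.1
            · exact ht.2 g4
          | some j =>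
            rw [hτ, mem_some] at g3
            rw [hτ] at g2
            rcases g3 with g4 | g4
            · exact ((third (tp u) j _ (fun g => g2 (by rw [g]))).mpr g4.1).1 ht.1
            · exact ht.2 g4.2.1
        rw [h1, card_empty]
        exact Nat.zero_le _)
    (fun u _ v hv => by
      rw [mem_inter, mem_nb, hSm] at hv
      obtain ⟨g1, g2, g3⟩ := hv
      have ht : pt (lab v) ≠ tp u ∨ (lab v).1.2.1 ∈ W := g3.imp id (hMW _)
      have h0 := cnt_x τ w0 wq hw0 hwq (tp u) W (lab v) ht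
      have h1 : (univ.filter (fun x : Ix m w =>
          τ x.2.2 ≠ some (tp u) ∧ lab v ∈ lsW (tp u) W (τ x.2.2) x.1 x.2.1)).image e ⊆
          ((IA u).filter (fun b => v ∈ AlA u b)) ∪ {c0 u, tu u} := by
        intro b hb
        rw [mem_image] at hb
        obtain ⟨x, hx, hxb⟩ := hb
        rw [mem_filter] at hx
        rw [mem_union, mem_filter, hIAm, hAlm, mem_insert, mem_singleton]
        by_cases q1 : b = c0 u
        · exact Or.inr (Or.inl q1)
        · by_cases q2 : b = tu u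
          · exact Or.inr (Or.inr q2)
          · exact Or.inl ⟨⟨⟨x, hxb, hx.2.1⟩, q1, q2⟩, g1, g2, x, hxb, hx.2⟩
      have h2 := (card_le_card h1).trans (card_union_le _ _)
      have h3 := card_le_two (a := c0 u) (b := tu u)
      rw [card_image_of_injective _ he, h0, ← hM] at h2
      omega)
    (fun u _ b hb => by
      obtain ⟨⟨x, hx, hx2⟩, _, _⟩ := (hIAm u b).mp hb
      have h1 := upp_gen hL u (lsW (tp u) (Wm l) (τ x.2.2) x.1 x.2.1) (AlA u b ∩ SS u) (by
        intro v hv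
        rw [mem_inter, hAlm, hSm] at hv
        obtain ⟨⟨g1, _, x', hx', g2, g3⟩, _, g4⟩ := hv
        have hxx : x' = x := he (hx'.trans hx.symm)
        rw [hxx] at g3
        refine ⟨g1, ?_⟩
        cases hτ : τ x.2.2 with
        | none =>
          rw [hτ, mem_none] at g3
          rw [mem_none]
          exact ⟨g3.1, g4.imp id (hMm _)⟩
        | some j =>
          rw [hτ, mem_some] at g3
          rw [mem_some]
          rcases g3 with g5 | g5
          · exact Or.inl g5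
          · exact Or.inr ⟨g5.1, hMm _ (g4.resolve_left (fun g => g g5.1)), g5.2.2⟩)
      rw [den_ls _ _ _ hx2, hcWm, ← hNdef, ← hΛdef] at h1
      have h2 := numS hN3 hΛ41 hd3 (hX2 u) htt1 hMl
      have h6 : (((AlA u b ∩ SS u).card + tt + 4 : ℕ) : ℝ) ≤ ((M : ℕ) : ℝ) := by
        push_cast
        linarith
      have h7 : (AlA u b ∩ SS u).card + tt + 4 ≤ M := by exact_mod_cast h6
      omega)
  -- the colours e1 y
  obtain ⟨AlB, hAlB⟩ : ∃ AlB : V → Fin k → Finset V, AlB = fun u b =>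
    (nb G u).filter (fun v => v ∉ UH ∧
      ∃ y, e1 y = b ∧ lab v ∈ lsB (tp u) (sy y).1 (sy y).2) := ⟨_, rfl⟩
  have hAlmB : ∀ u b v, v ∈ AlB u b ↔ G.Adj u v ∧ v ∉ UH ∧
      ∃ y, e1 y = b ∧ lab v ∈ lsB (tp u) (sy y).1 (sy y).2 := by
    intro u b v
    rw [hAlB]
    simp only [mem_filter, mem_nb]
  obtain ⟨fB, hfB1, hfB2, hfB3, hfB4⟩ := hdB G d DB k UH U1 pr' IB
    AlB hd2 hDB1 hDBd
    hBG.deg hH.two hU1 hpt hinv hsp (fun u _ => (hIBc u).trans hDBd)
    (fun u _ b hb => by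
      refine ⟨fun v hv => mem_nb.mpr ((hAlmB u b v).mp hv).1, ?_⟩
      obtain ⟨⟨y, hy⟩, _, _⟩ := (hIBm u b).mp hb
      have h1 := low_gen hL hH u (lsB (tp u) (sy y).1 (sy y).2)
      have h0 := mul_le_mul_of_nonneg_right (den_lsB (l := l) (m := m) (r := r) (K := K)
        (S := S) hK4 (tp u) (sy y).1 (sy y).2) (Nat.cast_nonneg (α := ℝ) (nb G u).card)
      rw [← hΛdef] at h0
      have h2 := numB hN3 hΛ41 hd3 (hX1 u)
      have h4 : (((nb G u).filter (fun v => v ∉ UH ∧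
          lab v ∈ lsB (tp u) (sy y).1 (sy y).2)).card : ℝ) ≤
          ((AlB u b).card : ℝ) := by
        have h5 : (nb G u).filter (fun v => v ∉ UH ∧
          lab v ∈ lsB (tp u) (sy y).1 (sy y).2) ⊆ AlB u b := by
          intro v hv
          rw [mem_filter, mem_nb] at hv
          obtain ⟨g1, g2, g3⟩ := hv
          exact (hAlmB u b v).mpr ⟨g1, g2, y, hy, g3⟩
        exact_mod_cast card_le_card h5
      have h6 : (DB : ℝ) + 1 ≤ ((AlB u b).card : ℝ) := by
        linarith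
      exact_mod_cast h6)
    (fun u _ v => (card_le_card (filter_subset _ _)).trans (hIBc u))
  obtain ⟨wv, hwv⟩ : ∃ wv : V → Fin k → V, wv = fun u b =>
    if b ∈ Set.range e then fA u b else fB u b := ⟨_, rfl⟩
  have hwA : ∀ u b, b ∈ Set.range e → wv u b = fA u b := by
    intro u b hb
    rw [hwv]
    exact if_pos hb
  have hne : ∀ b, b ∈ Set.range e1 → b ∉ Set.range e := by
    rintro b ⟨y, hy⟩ ⟨x, hx⟩
    exact hee x y (hx.trans hy.symm)
  have hwB : ∀ u b, b ∈ Set.range e1 → wv u b = fB u b := by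
    intro u b hb
    rw [hwv]
    exact if_neg (hne b hb)
  have memA : ∀ u ∈ UH, ∀ x, e x ≠ c0 u → e x ≠ tu u → τ x.2.2 ≠ some (tp u) →
      G.Adj u (wv u (e x)) ∧ wv u (e x) ∉ UH ∧
      lab (wv u (e x)) ∈ lsW (tp u) W (τ x.2.2) x.1 x.2.1 := by
    intro u hu x h1 h2 h3
    have h4 := hfA1 u hu (e x) ((hIAm u (e x)).mpr ⟨⟨x, rfl, h3⟩, h1, h2⟩)
    rw [hAlm] at h4
    rw [hwA u (e x) ⟨x, rfl⟩]
    obtain ⟨g1, g2, x', g3, g4, g5⟩ := h4
    rw [he g3] at g5
    exact ⟨g1, g2, g5⟩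
  have notA : ∀ (i : ZMod 3) (x : Ix m w) (t : Lh l m r K K1 S), τ x.2.2 ≠ some i →
      t ∈ lsW i W (τ x.2.2) x.1 x.2.1 → ¬ (t.1.2.1 = 0 ∧ pt t = i) := by
    rintro i x t h1 h2 ⟨h3, h4⟩
    cases hτ : τ x.2.2 with
    | none =>
      rw [hτ, mem_none] at h2
      rcases h2.2 with g | g
      · exact g h4
      · exact (hWm _).mp g h3
    | some j =>
      rw [hτ, mem_some] at h2
      rw [hτ] at h1
      rcases h2 with g | g
      · exact ((third i j _ (fun g' => h1 (by rw [g']))).mpr g.1).1 h4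
      · exact (hWm _).mp g.2.1 h3
  have memB : ∀ u ∈ UH, ∀ y, e1 y ≠ c0 u → e1 y ≠ tu u →
      G.Adj u (wv u (e1 y)) ∧ wv u (e1 y) ∉ UH ∧
      lab (wv u (e1 y)) ∈ lsB (tp u) (sy y).1 (sy y).2 := by
    intro u hu y h1 h2
    have h4 := hfB1 u hu (e1 y) ((hIBm u (e1 y)).mpr ⟨⟨y, rfl⟩, h1, h2⟩)
    rw [hAlmB] at h4
    rw [hwB u (e1 y) ⟨y, rfl⟩]
    obtain ⟨g1, g2, y', g3, g4⟩ := h4
    rw [he1 g3] at g4
    exact ⟨g1, g2, g4⟩
  have hadjw : ∀ u ∈ UH, ∀ b, b ≠ c0 u → b ≠ tu u → Vd e τ e1 (tp u) b →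
      G.Adj u (wv u b) := by
    intro u hu b h1 h2 h3
    rcases h3 with ⟨x, rfl, hx⟩ | ⟨y, rfl⟩
    · exact (memA u hu x h1 h2 hx).1
    · exact (memB u hu y h1 h2).1
  refine ⟨wv, ?_, ?_, ?_, ?_, ?_, ?_, ?_⟩
  · intro u hu b h1 h2 h3
    rcases h3 with ⟨x, rfl, hx⟩ | ⟨y, rfl⟩
    · obtain ⟨g1, g2, g3⟩ := memA u hu x h1 h2 hx
      refine ⟨g1, g2, ?_⟩
      intro h4
      obtain ⟨y, hy1, _, hy2⟩ := hV.cP _ g2
      have h5 : (ce (lab (wv u (e x))), y) = x := he (hy1.symm.trans h4)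
      have h6 : ce (lab (wv u (e x))) = x.1 := congrArg Prod.fst h5
      have h7 : τ x.2.2 = none := by rw [← h5]; exact hy2
      rw [h7, mem_none, h6] at g3
      apply hne0 (m := m) x.2.1
      linear_combination -g3.1
    · obtain ⟨g1, g2, _⟩ := memB u hu y h1 h2
      refine ⟨g1, g2, ?_⟩
      obtain ⟨z, hz, _⟩ := hV.cP _ g2
      rw [hz]
      exact hee _ _
  · intro u hu b b' h1 h2 h1' h2' h3 h3' h4
    rcases h3 with ⟨x, rfl, hx⟩ | ⟨y, rfl⟩
    · rcases h3' with ⟨x', rfl, hx'⟩ | ⟨y', rfl⟩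
      · rw [hwA u (e x) ⟨x, rfl⟩, hwA u (e x') ⟨x', rfl⟩] at h4
        exact hfA2 u hu (mem_coe.mpr ((hIAm u _).mpr ⟨⟨x, rfl, hx⟩, h1, h2⟩))
          (mem_coe.mpr ((hIAm u _).mpr ⟨⟨x', rfl, hx'⟩, h1', h2'⟩)) h4
      · exfalso
        have g1 := notA (tp u) x _ hx (memA u hu x h1 h2 hx).2.2
        have g2 := mem_lsB.mp (memB u hu y' h1' h2').2.2
        rw [h4] at g1
        exact g1 ⟨g2.1, g2.2.1⟩
    · rcases h3' with ⟨x', rfl, hx'⟩ | ⟨y', rfl⟩
      · exfalso
        have g1 := notA (tp u) x' _ hx' (memA u hu x' h1' h2' hx').2.2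
        have g2 := mem_lsB.mp (memB u hu y h1 h2).2.2
        rw [← h4] at g1
        exact g1 ⟨g2.1, g2.2.1⟩
      · rw [hwB u (e1 y) ⟨y, rfl⟩, hwB u (e1 y') ⟨y', rfl⟩] at h4
        exact hfB2 u hu (mem_coe.mpr ((hIBm u _).mpr ⟨⟨y, rfl⟩, h1, h2⟩))
          (mem_coe.mpr ((hIBm u _).mpr ⟨⟨y', rfl⟩, h1', h2'⟩)) h4
  · intro u hu u' hu' b h1 h2 h1' h2' h3 h3' h4
    have g1 : G.Adj u (wv u b) := hadjw u hu b h1 h2 h3
    have g2 : G.Adj u' (wv u' b) := hadjw u' hu' b h1' h2' h3'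
    rw [← h4] at g2
    rcases hH.far (wv u b) u hu u' hu' g1.symm g2.symm with h5 | h5
    · exact h5
    · exfalso
      have h6 : u' = pr' u := hadj u u' hu h5
      rw [h6] at h4 h1' h2' h3'
      by_cases hb : b ∈ Set.range e
      · have k1 : ∃ x, e x = b ∧ τ x.2.2 ≠ some (tp u) :=
          h3.resolve_right (fun g => hne b g hb)
        have k2 : ∃ x, e x = b ∧ τ x.2.2 ≠ some (tp (pr' u)) :=
          h3'.resolve_right (fun g => hne b g hb)
        rw [hwA u b hb, hwA _ b hb] at h4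
        exact hfA3 u hu b ((hIAm u b).mpr ⟨k1, h1, h2⟩)
          ((hIAm (pr' u) b).mpr ⟨k2, h1', h2'⟩) h4
      · have k1 : b ∈ Set.range e1 := by
          rcases h3 with ⟨x, hx, _⟩ | h3
          · exact absurd ⟨x, hx⟩ hb
          · exact h3
        rw [hwB u b k1, hwB _ b k1] at h4
        exact hfB3 u hu b ((hIBm u b).mpr ⟨k1, h1, h2⟩)
          ((hIBm (pr' u) b).mpr ⟨k1, h1', h2'⟩) h4
  · intro u hu x h1 h2 h3
    have g1 := (memA u hu x h1 h2 h3).2.2
    rw [mem_c3]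
    cases hτ : τ x.2.2 with
    | none =>
      rw [hτ, mem_none] at g1
      exact ⟨Or.inr (Or.inl g1.1), by simp⟩
    | some j =>
      rw [hτ, mem_some] at g1
      rw [hτ] at h3
      have hij : tp u ≠ j := fun g => h3 (by rw [g])
      rcases g1 with ⟨g2, g3⟩ | ⟨g2, _, g3⟩
      · refine ⟨g3.elim (fun g => Or.inr (Or.inl g)) (fun g => Or.inr (Or.inr g)), ?_⟩
        intro g4
        exact ((third (tp u) j _ hij).mpr g2).2 (Option.some_inj.mp g4).symm
      · refine ⟨Or.inl g3, ?_⟩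
        intro g4
        exact hij (g2.symm.trans (Option.some_inj.mp g4).symm)
  · intro u hu y h1 h2
    exact (mem_lsB.mp (memB u hu y h1 h2).2.2).2.2
  · intro u hu v h1 h2 h3
    obtain ⟨b, hb, hfb⟩ := hfAS u hu v (mem_inter.mpr ⟨mem_nb.mpr h1, (hSm u v).mpr ⟨h2, h3⟩⟩)
    obtain ⟨⟨x, hx, hx2⟩, g1, g2⟩ := (hIAm u b).mp hb
    refine ⟨x, hx2, by rw [hx]; exact g1, by rw [hx]; exact g2, ?_⟩
    rw [hwA u (e x) ⟨x, rfl⟩, hx]
    exact hfb
  · intro v b
    by_cases hb : b ∈ Set.range e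
    · refine le_trans ?_ (hfA4 v b)
      have h1 : nb G v ∩ UW UH c0 tu e τ e1 tp wv b ⊆
          (nb G v).filter (fun x => ∃ u ∈ UH, b ∈ IA u ∧ fA u b = x) := by
        intro x hx
        unfold UW at hx
        rw [mem_inter, mem_filter] at hx
        obtain ⟨hx1, _, u, hu, g0, g1, g2, g3⟩ := hx
        rw [mem_filter]
        refine ⟨hx1, u, hu, (hIAm u b).mpr ⟨g0.resolve_right (fun g => hne b g hb), g1, g2⟩, ?_⟩
        rw [← hwA u b hb]
        exact g3
      exact_mod_cast card_le_card h1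
    · refine le_trans ?_ (hfB4 v b)
      have h1 : nb G v ∩ UW UH c0 tu e τ e1 tp wv b ⊆
          (nb G v).filter (fun x => ∃ u ∈ UH, b ∈ IB u ∧ fB u b = x) := by
        intro x hx
        unfold UW at hx
        rw [mem_inter, mem_filter] at hx
        obtain ⟨hx1, _, u, hu, g0, g1, g2, g3⟩ := hx
        have k1 : b ∈ Set.range e1 := by
          rcases g0 with ⟨x', hx', _⟩ | g0
          · exact absurd ⟨x', hx'⟩ hb
          · exact g0
        rw [mem_filter]
        refine ⟨hx1, u, hu, (hIBm u b).mpr ⟨k1, g1, g2⟩, ?_⟩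
        rw [← hwB u b k1]
        exact g3
      exact_mod_cast card_le_card h1

end Pool.Agent.Work.MP_db9399_lh.helper29
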