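import Pool.Agent.Work.MP_db9399_lh.Base
import Pool.Agent.Work.MP_db9399_lc_helper29.UCS
import Pool.Agent.Work.MP_db9399_lc_helper29.Deep0
import Pool.Agent.Work.MP_db9399_bg_helper84.UPAR

/-! THEOREM LCH, block UPAR, part 1: UCS of LC with sets depending on the vertex (helper29; `twoV` from helper84). -/

set_option autoImplicit false

namespace Pool.Agent.Work.MP_db9399_lh.helper29

open Finset Classical
open Pool.Agent.Work.MP_db9399_lh
open Pool.Agent.Work.MP_db9399_all (nb DepOnI PackI)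
open Pool.Agent.Work.MP_db9399_px (LWalk hit ee)
open Pool.Agent.Work.MP_db9399_dn (NB IsMat Tot)
open Pool.Agent.Work.MP_db9399_bg (den cl LabP Good PN IsPat en enP Sep Near REnv r0 Deep Spr Ok
  Lbl bx c3f c3 rs rs_symm eR HPre Ix mem_nb mem_cl c3f_inj mem_c3 natCast_inj natCast_eq_neg)
open Pool.Agent.Work.MP_db9399_bg.helper84 (split two)
open Pool.Agent.Work.MP_db9399_lc (BL)
open Pool.Agent.Work.MP_db9399_lc.helper29 (Wm card_Wm)
open Pool.Agent.Work.MP_db9399_lc.helper29.UCS (sel)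

universe u

/-- UCS of LC with sets `S u` depending on `u` -/
theorem ucsV (c δ : ℝ) (hc : 0 < c) (hδ : 0 < δ) :
    ∃ d0 : ℕ, ∀ {V : Type u} [Fintype V] (G : SimpleGraph V)
    (d D D' t k : ℕ) (U : Finset V) (S : V → Finset V) (I : V → Finset (Fin k))
    (Al : V → Fin k → Finset V),
    d0 ≤ d → c * d ≤ (t : ℝ) → 0 < D' → (∀ v, (nb G v).card ≤ d) →
    (∀ v, (nb G v ∩ U).card ≤ 2) → (∀ u ∈ U, (I u).card ≤ d) →
    (∀ u ∈ U, ∀ b ∈ I u, Al u b ⊆ nb G u ∧ D ≤ (Al u b).card) →
    (∀ u ∈ U, ∀ v, ((I u).filter (fun b => v ∈ Al u b)).card + t ≤ D) →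
    (∀ u ∈ U, ∀ v ∈ nb G u ∩ S u, D' ≤ ((I u).filter (fun b => v ∈ Al u b)).card) →
    (∀ u ∈ U, ∀ b ∈ I u, (Al u b ∩ S u).card + t ≤ D') →
    ∃ f : V → Fin k → V, (∀ u ∈ U, ∀ b ∈ I u, f u b ∈ Al u b) ∧
      (∀ u ∈ U, Set.InjOn (f u) (I u : Set (Fin k))) ∧
      (∀ u ∈ U, ∀ v ∈ nb G u ∩ S u, ∃ b ∈ I u, f u b = v) ∧
      ∀ v b, (((nb G v).filter (fun x => ∃ u ∈ U, b ∈ I u ∧ f u b = x)).card : ℝ) ≤ δ * d := by
  set T : ℝ := min (δ / 8) (1 / 4) with hT
  have hT0 : 0 < T := by rw [hT]; exact lt_min (by linarith) (by norm_num)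
  have hT1 : T ≤ 1 / 4 := min_le_right _ _
  have hT2 : T ≤ δ / 8 := min_le_left _ _
  set K : ℝ := 7680 * Real.exp (4 / c) / (δ ^ 5 * T) with hK
  refine ⟨max 1 ⌈K⌉₊, ?_⟩
  intro V _ G d D D' t k U S I Al hd hcd hD'0 hdeg hU2 hI hAl hgrp hS hAS
  have hd1 : 1 ≤ d := (le_max_left _ _).trans hd
  have hd1' : (1 : ℝ) ≤ d := by exact_mod_cast hd1
  have hdK : K ≤ (d : ℝ) := by
    refine (Nat.le_ceil K).trans ?_
    exact_mod_cast (le_max_right _ _).trans hd
  have ht0' : (0 : ℝ) < t := lt_of_lt_of_le (by positivity) hcd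
  have ht0 : 0 < t := by exact_mod_cast ht0'
  have hsel : ∀ u, ∃ tt : Fin t → Fin k → V, u ∈ U →
      (∀ j, ∀ b ∈ I u, tt j b ∈ Al u b) ∧
      (∀ j, Set.InjOn (tt j) (I u : Set (Fin k))) ∧
      (∀ j, ∀ v ∈ nb G u ∩ S u, ∃ b ∈ I u, tt j b = v) ∧
      ∀ b ∈ I u, Function.Injective (fun j => tt j b) := by
    intro u
    by_cases hu : u ∈ U
    · obtain ⟨tt, h1, h2, h3, h4⟩ := sel (fun _ => u) (I u) (nb G u ∩ S u) t (Al u) D D' hD'0
        (fun b hb => (hAl u hu b hb).2) (hgrp u hu) (hS u hu) (by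
          intro b hb
          have : (Al u b ∩ (nb G u ∩ S u)).card ≤ (Al u b ∩ S u).card := by
            apply card_le_card
            intro x hx
            rw [mem_inter, mem_inter] at hx
            exact mem_inter.2 ⟨hx.1, hx.2.2⟩
          have := hAS u hu b hb
          omega)
      exact ⟨tt, fun _ => ⟨h1, h2, h3, h4⟩⟩
    · exact ⟨fun _ _ => u, fun h => absurd h hu⟩
  choose val htt using hsel
  have hval3 : ∀ u ∈ U, ∀ b ∈ I u, ∀ j j', val u j b = val u j' b → j = j' := by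
    intro u hu b hb j j' h
    exact (htt u hu).2.2.2 b hb h
  set B : V → Fin k → V → Finset (Fin t) := fun y b u =>
    univ.filter (fun j => b ∈ I u ∧ val u j b ∈ nb G y) with hB
  set Uy : V → Finset V := fun y => U.filter (fun u => (nb G y ∩ nb G u).Nonempty) with hUy
  have hvalnb : ∀ u ∈ U, ∀ j, ∀ b ∈ I u, val u j b ∈ nb G u := fun u hu j b hb =>
    (hAl u hu b hb).1 ((htt u hu).1 j b hb)
  have hBc : ∀ y b, ∀ u ∈ U, (B y b u).card ≤ (nb G y ∩ nb G u).card := by
    intro y b u hu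
    by_cases hb : b ∈ I u
    · apply card_le_card_of_injOn (fun j => val u j b)
      · intro j hj
        simp only [hB, coe_filter, mem_univ, true_and, Set.mem_ofPred_eq] at hj
        simp only [coe_inter, Set.mem_inter_iff, mem_coe]
        exact ⟨hj.2, hvalnb u hu j b hb⟩
      · intro j _ j' _ h
        exact hval3 u hu b hb j j' h
    · have : B y b u = ∅ := by
        apply filter_eq_empty_iff.2
        intro j _ h
        exact hb h.1
      rw [this]; simp
  have hpath : ∀ y, (∑ u ∈ U, (nb G y ∩ nb G u).card) ≤ 2 * d := fun y =>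
    (Pool.Agent.Work.MP_db9399_bg.helper99.UCL.paths G U hU2 y).trans
      (Nat.mul_le_mul_left 2 (hdeg y))
  have hUc : ∀ y, (Uy y).card ≤ 2 * d := by
    intro y
    refine le_trans ?_ (hpath y)
    rw [card_eq_sum_ones]
    calc (∑ x ∈ Uy y, 1) ≤ ∑ u ∈ Uy y, (nb G y ∩ nb G u).card := by
          apply Finset.sum_le_sum
          intro u hu
          exact card_pos.2 (mem_filter.1 hu).2
      _ ≤ _ := Finset.sum_le_sum_of_subset (filter_subset _ _)
  set W : ℝ := (2 * d * d) * Real.exp (4 / c - δ * d / 2) with hW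
  suffices hkey : ∃ f : V → Fin t, ∀ y, ∀ b,
      (((nb G y).filter (fun x => ∃ u ∈ U, b ∈ I u ∧ val u (f u) b = x)).card : ℝ) ≤ δ * d by
    obtain ⟨f, hf⟩ := hkey
    refine ⟨fun u b => val u (f u) b, ?_, ?_, ?_, fun y b => hf y b⟩
    · intro u hu b hb
      exact (htt u hu).1 (f u) b hb
    · intro u hu
      exact (htt u hu).2.1 (f u)
    · intro u hu
      exact (htt u hu).2.2.1 (f u)
  refine Pool.Agent.Work.MP_db9399_all.stmt_LLLI V t V T Uy (fun _ => W)
    (fun y f => ∀ b,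
      (((nb G y).filter (fun x => ∃ u ∈ U, b ∈ I u ∧ val u (f u) b = x)).card : ℝ) ≤ δ * d)
    ht0 hT0.le hT1 ?_ ?_
  · intro y
    refine ⟨ULift.{u} {b : Fin k // ∃ u ∈ Uy y, b ∈ I u}, inferInstance, fun _ => Uy y,
      fun b f => δ * d < (((Uy y).filter (fun u => f u ∈ B y b.down.1 u)).card : ℝ),
      ?_, ?_, ?_, ?_, ?_⟩
    · intro b f f' hff
      have : (Uy y).filter (fun u => f u ∈ B y b.down.1 u) =
          (Uy y).filter (fun u => f' u ∈ B y b.down.1 u) := by
        apply filter_congr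
        intro u hu
        rw [hff u hu]
      simp only [this]
    · intro b
      obtain ⟨u, hu, -⟩ := b.down.2
      exact ⟨u, hu⟩
    · intro b
      exact Subset.rfl
    · have hterm : ∀ b : ULift.{u} {b : Fin k // ∃ u ∈ Uy y, b ∈ I u},
          MP_db9399_all.pr (fun f : V → Fin t =>
            δ * d < (((Uy y).filter (fun u => f u ∈ B y b.down.1 u)).card : ℝ)) *
            Real.exp (2 * T * ((Uy y).card : ℝ)) ≤ Real.exp (4 / c - δ * d / 2) := by
        intro b
        have h1 := Pool.Agent.Work.MP_db9399_exp.helper59.UCOLAux.chern t ht0 (Uy y)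
          (B y b.down.1) (2 / c) (δ * d) (by
          have e1 : (∑ u ∈ Uy y, (B y b.down.1 u).card) ≤ 2 * d := by
            refine le_trans ?_ (hpath y)
            calc (∑ u ∈ Uy y, (B y b.down.1 u).card) ≤ ∑ u ∈ Uy y, (nb G y ∩ nb G u).card :=
                  Finset.sum_le_sum (fun u hu => hBc y _ u (mem_filter.1 hu).1)
              _ ≤ _ := Finset.sum_le_sum_of_subset (filter_subset _ _)
          have e2 : (∑ u ∈ Uy y, ((B y b.down.1 u).card : ℝ)) ≤ 2 * d := by exact_mod_cast e1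
          refine e2.trans ?_
          rw [div_mul_eq_mul_div, le_div_iff₀ hc]
          linarith)
        have h2 : Real.exp (2 * T * ((Uy y).card : ℝ)) ≤ Real.exp (δ * d / 2) := by
          apply Real.exp_le_exp.2
          have e1 : ((Uy y).card : ℝ) ≤ 2 * d := by exact_mod_cast hUc y
          calc 2 * T * ((Uy y).card : ℝ) ≤ 2 * T * (2 * d) :=
                mul_le_mul_of_nonneg_left e1 (by linarith)
            _ ≤ δ * d / 2 := by nlinarith
        calc _ ≤ Real.exp (2 * (2 / c) - δ * d) * Real.exp (δ * d / 2) :=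
              mul_le_mul h1 h2 (Real.exp_pos _).le (Real.exp_pos _).le
          _ = Real.exp (4 / c - δ * d / 2) := by
              rw [← Real.exp_add]; congr 1; ring
      refine (Finset.sum_le_card_nsmul _ _ _ (fun b _ => hterm b)).trans ?_
      rw [nsmul_eq_mul, hW]
      apply mul_le_mul_of_nonneg_right _ (Real.exp_pos _).le
      have e1 : (univ : Finset (ULift.{u} {b : Fin k // ∃ u ∈ Uy y, b ∈ I u})).card ≤
          ((Uy y).biUnion I).card := by
        rw [card_univ, Fintype.card_ulift, ← Fintype.card_coe ((Uy y).biUnion I)]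
        exact Fintype.card_le_of_injective
          (fun b => ⟨b.1, mem_biUnion.2 (by
            obtain ⟨u, hu, hb⟩ := b.2
            exact ⟨u, hu, hb⟩)⟩) (by
          intro a b h
          exact Subtype.ext (by simpa using h))
      have e2 : ((Uy y).biUnion I).card ≤ 2 * d * d := by
        refine (card_biUnion_le_card_mul _ _ d (fun u hu => hI u (mem_filter.1 hu).1)).trans ?_
        exact Nat.mul_le_mul_right d (hUc y)
      have e3 : (((univ : Finset (ULift.{u} {b : Fin k // ∃ u ∈ Uy y, b ∈ I u})).card : ℕ) : ℝ) ≤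
          ((2 * d * d : ℕ) : ℝ) := by exact_mod_cast e1.trans e2
      push_cast at e3
      exact e3
    · intro f hf b
      have hle : ((nb G y).filter (fun x => ∃ u ∈ U, b ∈ I u ∧ val u (f u) b = x)).card ≤
          ((Uy y).filter (fun u => f u ∈ B y b u)).card := by
        have h1 : (nb G y).filter (fun x => ∃ u ∈ U, b ∈ I u ∧ val u (f u) b = x) ⊆
            ((Uy y).filter (fun u => f u ∈ B y b u)).image (fun u => val u (f u) b) := by
          intro x hx
          rw [mem_filter] at hx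
          obtain ⟨hx1, u, hu, hb, hv⟩ := hx
          rw [mem_image]
          refine ⟨u, ?_, hv⟩
          rw [mem_filter]
          have hxu : x ∈ nb G u := by rw [← hv]; exact hvalnb u hu (f u) b hb
          refine ⟨mem_filter.2 ⟨hu, ⟨x, mem_inter.2 ⟨hx1, hxu⟩⟩⟩, ?_⟩
          rw [hB]
          simp only [mem_filter, mem_univ, true_and]
          rw [hv]
          exact ⟨hb, hx1⟩
        exact (card_le_card h1).trans card_image_le
      by_cases hex : ∃ u ∈ Uy y, b ∈ I u
      · have h2 := hf ⟨⟨b, hex⟩⟩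
        simp only [not_lt] at h2
        exact le_trans (by exact_mod_cast hle) h2
      · have he : (nb G y).filter (fun x => ∃ u ∈ U, b ∈ I u ∧ val u (f u) b = x) = ∅ := by
          apply filter_eq_empty_iff.2
          rintro x hx ⟨u, hu, hb, hv⟩
          apply hex
          have hxu : x ∈ nb G u := by rw [← hv]; exact hvalnb u hu (f u) b hb
          exact ⟨u, mem_filter.2 ⟨hu, ⟨x, mem_inter.2 ⟨hx, hxu⟩⟩⟩, hb⟩
        rw [he]
        simp only [card_empty, Nat.cast_zero]
        positivity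
  · intro u
    rw [Finset.sum_const, nsmul_eq_mul]
    have hcnt : (univ.filter (fun y => u ∈ Uy y)).card ≤ d * d := by
      have h1 : univ.filter (fun y => u ∈ Uy y) ⊆ (nb G u).biUnion (fun w => nb G w) := by
        intro y hy
        simp only [mem_filter, mem_univ, true_and, hUy] at hy
        obtain ⟨hu, w, hw⟩ := hy
        rw [mem_inter, mem_nb, mem_nb] at hw
        rw [mem_biUnion]
        exact ⟨w, mem_nb.2 hw.2, mem_nb.2 hw.1.symm⟩
      refine (card_le_card h1).trans ((card_biUnion_le_card_mul _ _ d (fun w _ => hdeg w)).trans ?_)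
      exact Nat.mul_le_mul_right d (hdeg u)
    have hcnt' : ((univ.filter (fun y => u ∈ Uy y)).card : ℝ) ≤ d * d := by exact_mod_cast hcnt
    have hW0 : 0 ≤ W := by rw [hW]; positivity
    refine (mul_le_mul_of_nonneg_right hcnt' hW0).trans ?_
    rw [hW, sub_eq_add_neg, Real.exp_add, Real.exp_neg]
    have hx : (0 : ℝ) ≤ δ * d / 2 := by positivity
    have hexp : (δ * d / 2) ^ 5 / 120 ≤ Real.exp (δ * d / 2) := by
      have := Real.pow_div_factorial_le_exp (δ * d / 2) hx 5
      norm_num [Nat.factorial] at this ⊢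
      exact this
    have hpos : (0 : ℝ) < (δ * d / 2) ^ 5 / 120 := by positivity
    have hinv : (Real.exp (δ * d / 2))⁻¹ ≤ ((δ * d / 2) ^ 5 / 120)⁻¹ :=
      inv_anti₀ hpos hexp
    have hd0 : (0 : ℝ) < d := by linarith
    calc (d : ℝ) * d * (2 * d * d * (Real.exp (4 / c) * (Real.exp (δ * d / 2))⁻¹))
        ≤ (d : ℝ) * d * (2 * d * d * (Real.exp (4 / c) * ((δ * d / 2) ^ 5 / 120)⁻¹)) := by
          gcongr
      _ = 7680 * Real.exp (4 / c) / (δ ^ 5 * d) := by
          field_simp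
          ring
      _ ≤ T := by
          rw [div_le_iff₀ (by positivity)]
          rw [hK, div_le_iff₀ (by positivity)] at hdK
          linarith


/-- `ucsV` twice: first one end of every edge, then the other end -/
theorem twoV (c δ : ℝ) (hc : 0 < c) (hδ : 0 < δ) :
    ∃ d0 : ℕ, ∀ {V : Type u} [Fintype V] (G : SimpleGraph V) (d D D' t k : ℕ)
      (UH U1 : Finset V) (S : V → Finset V) (pt : V → V) (I : V → Finset (Fin k))
      (Al : V → Fin k → Finset V),
      d0 ≤ d → c * d ≤ (t : ℝ) → 0 < D' → (∀ v, (nb G v).card ≤ d) →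
      (∀ v, (nb G v ∩ UH).card ≤ 2) →
      U1 ⊆ UH → (∀ u ∈ UH, pt u ∈ UH) → (∀ u ∈ UH, pt (pt u) = u) →
      (∀ u ∈ UH, (u ∈ U1 ↔ pt u ∉ U1)) → (∀ u ∈ UH, (I u).card ≤ d) →
      (∀ u ∈ UH, ∀ b ∈ I u, Al u b ⊆ nb G u ∧ D + 1 ≤ (Al u b).card) →
      (∀ u ∈ UH, ∀ v, ((I u).filter (fun b => v ∈ Al u b)).card + t ≤ D) →
      (∀ u ∈ UH, ∀ v ∈ nb G u ∩ S u, D' + 1 ≤ ((I u).filter (fun b => v ∈ Al u b)).card) →
      (∀ u ∈ UH, ∀ b ∈ I u, (Al u b ∩ S u).card + t ≤ D') →
      ∃ f : V → Fin k → V, (∀ u ∈ UH, ∀ b ∈ I u, f u b ∈ Al u b) ∧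
        (∀ u ∈ UH, Set.InjOn (f u) (I u : Set (Fin k))) ∧
        (∀ u ∈ UH, ∀ b ∈ I u, b ∈ I (pt u) → f u b ≠ f (pt u) b) ∧
        (∀ u ∈ UH, ∀ v ∈ nb G u ∩ S u, ∃ b ∈ I u, f u b = v) ∧
        ∀ v b, (((nb G v).filter (fun x => ∃ u ∈ UH, b ∈ I u ∧ f u b = x)).card : ℝ) ≤
          δ * d := by
  obtain ⟨d0, h0⟩ := ucsV.{u} c (δ / 2) hc (by positivity)
  refine ⟨d0, ?_⟩
  intro V _ G d D D' t k UH U1 S pt I Al hd hct hD' hdeg h2 hU1 hpt hinv hsp hI hAl hcnt hS hS2
  obtain ⟨f1, h11, h12, h1s, h13⟩ := h0 G d D D' t k U1 S I Al hd hct hD' hdeg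
    (fun v => (card_le_card (inter_subset_inter_left hU1)).trans (h2 v))
    (fun u hu => hI u (hU1 hu))
    (fun u hu b hb => ⟨(hAl u (hU1 hu) b hb).1, by have := (hAl u (hU1 hu) b hb).2; omega⟩)
    (fun u hu v => hcnt u (hU1 hu) v)
    (fun u hu v hv => by have := hS u (hU1 hu) v hv; omega)
    (fun u hu b hb => hS2 u (hU1 hu) b hb)
  obtain ⟨Al2, hAl2⟩ : ∃ Al2 : V → Fin k → Finset V, Al2 = fun u b =>
    if b ∈ I (pt u) then (Al u b).erase (f1 (pt u) b) else Al u b := ⟨_, rfl⟩
  have hsub : ∀ u b, Al2 u b ⊆ Al u b := by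
    intro u b
    rw [hAl2]
    show (if b ∈ I (pt u) then (Al u b).erase (f1 (pt u) b) else Al u b) ⊆ Al u b
    split_ifs
    · exact erase_subset _ _
    · exact Subset.refl _
  have hmem : ∀ u b v, v ∈ Al u b → v ∉ Al2 u b → b ∈ I (pt u) ∧ f1 (pt u) b = v := by
    intro u b v h3 h4
    rw [hAl2] at h4
    change ¬ (v ∈ (if b ∈ I (pt u) then (Al u b).erase (f1 (pt u) b) else Al u b)) at h4
    by_cases h5 : b ∈ I (pt u)
    · rw [if_pos h5, mem_erase] at h4
      refine ⟨h5, ?_⟩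
      by_contra h6
      exact h4 ⟨fun h7 => h6 h7.symm, h3⟩
    · rw [if_neg h5] at h4
      exact absurd h3 h4
  obtain ⟨f2, h21, h22, h2s, h23⟩ := h0 G d D D' t k (UH \ U1) S I Al2
    hd hct hD' hdeg
    (fun v => (card_le_card (inter_subset_inter_left sdiff_subset)).trans (h2 v))
    (fun u hu => hI u (sdiff_subset hu))
    (fun u hu b hb => by
      obtain ⟨h3, h4⟩ := hAl u (sdiff_subset hu) b hb
      refine ⟨(hsub u b).trans h3, ?_⟩
      have h5 := pred_card_le_card_erase (s := Al u b) (a := f1 (pt u) b)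
      have h6 : (Al u b).erase (f1 (pt u) b) ⊆ Al2 u b := by
        intro v hv
        by_contra h7
        exact (mem_erase.mp hv).1 (hmem u b v (mem_of_mem_erase hv) h7).2.symm
      have h7 := card_le_card h6
      omega)
    (fun u hu v => by
      refine le_trans (Nat.add_le_add_right (card_le_card ?_) t) (hcnt u (sdiff_subset hu) v)
      intro b hb
      rw [mem_filter] at hb ⊢
      exact ⟨hb.1, hsub u b hb.2⟩)
    (fun u hu v hv => by
      have h3 := hS u (sdiff_subset hu) v hv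
      have hu2 := mem_sdiff.mp hu
      have hptu : pt u ∈ U1 := by
        by_contra h4
        exact hu2.2 ((hsp u hu2.1).mpr h4)
      have h4 : ((I u).filter (fun b => v ∈ Al u b)) ⊆
          ((I u).filter (fun b => v ∈ Al2 u b)) ∪
          ((I (pt u)).filter (fun b => f1 (pt u) b = v)) := by
        intro b hb
        rw [mem_filter] at hb
        rw [mem_union, mem_filter, mem_filter]
        by_cases h5 : v ∈ Al2 u b
        · exact Or.inl ⟨hb.1, h5⟩
        · exact Or.inr (hmem u b v hb.2 h5)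
      have h5 : ((I (pt u)).filter (fun b => f1 (pt u) b = v)).card ≤ 1 := by
        rw [card_le_one]
        intro b hb b' hb'
        rw [mem_filter] at hb hb'
        exact h12 (pt u) hptu (mem_coe.mpr hb.1) (mem_coe.mpr hb'.1) (hb.2.trans hb'.2.symm)
      have h6 := (card_le_card h4).trans (card_union_le _ _)
      omega)
    (fun u hu b hb => by
      have h3 := hS2 u (sdiff_subset hu) b hb
      have h4 := card_le_card (inter_subset_inter_right (u := S u) (hsub u b))
      omega)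
  refine ⟨fun u b => if u ∈ U1 then f1 u b else f2 u b, ?_, ?_, ?_, ?_, ?_⟩
  · intro u hu b hb
    by_cases h : u ∈ U1
    · simp only [h, if_true]
      exact h11 u h b hb
    · simp only [h, if_false]
      exact hsub u b (h21 u (mem_sdiff.mpr ⟨hu, h⟩) b hb)
  · intro u hu
    by_cases h : u ∈ U1
    · simp only [h, if_true]
      exact h12 u h
    · simp only [h, if_false]
      exact h22 u (mem_sdiff.mpr ⟨hu, h⟩)
  · have key : ∀ u ∈ UH, u ∉ U1 → ∀ b ∈ I u, b ∈ I (pt u) → f2 u b ≠ f1 (pt u) b := by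
      intro u hu h b hb hb'
      have h4 := h21 u (mem_sdiff.mpr ⟨hu, h⟩) b hb
      rw [hAl2] at h4
      change f2 u b ∈ (if b ∈ I (pt u) then (Al u b).erase (f1 (pt u) b) else Al u b) at h4
      rw [if_pos hb'] at h4
      exact ne_of_mem_erase h4
    intro u hu b hb hb'
    by_cases h : u ∈ U1
    · have h3 : pt u ∉ U1 := (hsp u hu).mp h
      simp only [h, if_true, h3, if_false]
      have h4 := key (pt u) (hpt u hu) h3 b hb' (by rw [hinv u hu]; exact hb)
      rw [hinv u hu] at h4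
      exact h4.symm
    · have h3 : pt u ∈ U1 := by
        by_contra h3
        exact h ((hsp u hu).mpr h3)
      simp only [h, if_false, h3, if_true]
      exact key u hu h b hb hb'
  · intro u hu v hv
    by_cases h : u ∈ U1
    · simp only [h, if_true]
      exact h1s u h v hv
    · simp only [h, if_false]
      exact h2s u (mem_sdiff.mpr ⟨hu, h⟩) v hv
  · intro v b
    have h3 : ((nb G v).filter (fun x => ∃ u ∈ UH, b ∈ I u ∧
        (if u ∈ U1 then f1 u b else f2 u b) = x)) ⊆
        ((nb G v).filter (fun x => ∃ u ∈ U1, b ∈ I u ∧ f1 u b = x)) ∪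
        ((nb G v).filter (fun x => ∃ u ∈ UH \ U1, b ∈ I u ∧ f2 u b = x)) := by
      intro x hx
      rw [mem_filter] at hx
      obtain ⟨hx1, u, hu, hb, hfu⟩ := hx
      rw [mem_union, mem_filter, mem_filter]
      by_cases h : u ∈ U1
      · rw [if_pos h] at hfu
        exact Or.inl ⟨hx1, u, h, hb, hfu⟩
      · rw [if_neg h] at hfu
        exact Or.inr ⟨hx1, u, mem_sdiff.mpr ⟨hu, h⟩, hb, hfu⟩
    have h4 : (((nb G v).filter (fun x => ∃ u ∈ UH, b ∈ I u ∧
        (if u ∈ U1 then f1 u b else f2 u b) = x)).card : ℝ) ≤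
        (((nb G v).filter (fun x => ∃ u ∈ U1, b ∈ I u ∧ f1 u b = x)).card : ℝ) +
        (((nb G v).filter (fun x => ∃ u ∈ UH \ U1, b ∈ I u ∧ f2 u b = x)).card : ℝ) := by
      exact_mod_cast (card_le_card h3).trans (card_union_le _ _)
    have h5 := h13 v b
    have h6 := h23 v b
    linarith


end Pool.Agent.Work.MP_db9399_lh.helper29
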